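import Pool.Agent.H503R3.NF.Stmts

/-! The ring `R k` is integrally closed. -/

set_option autoImplicit false

open IsLocalRing
open MvPolynomial (X)

namespace Pool.Agent.H787R3.NF

open H503R3 H503R3.NF H503R3.FR

theorem key (hMem : FR.TaskMem) (hCoord : FR.TaskCoord) (hPar : FR.TaskParity)
    (hRoot : FR.TaskRoot) (k : Type) [Field k] [IsAlgClosed k] [CharP k 2]
    (α β : R k) (hβ : β ≠ 0) (z : D k) (hz : (α : D k) = β * z) : z ∈ R k := by
  obtain ⟨P⟩ := hPar k
  obtain ⟨C⟩ := hCoord k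
  obtain ⟨v, hv, hβv⟩ := (hRoot k).2 β β.2
  obtain ⟨a, b, ha, hb, hab⟩ := (hMem k (α * β)).1 (mul_mem α.2 β.2)
  have hβ' : (β : D k) ≠ 0 := fun h => hβ (Subtype.ext h)
  have hEv0 : E k v ≠ 0 := by
    rw [← hβv]
    exact pow_ne_zero 2 hβ'
  have hv0 : v ≠ 0 := by
    rintro rfl
    exact hEv0 (map_zero _)
  have hEv : E k v * z = E k a * 1 + E k b * w k := by
    rw [mul_one, ← hab, ← hβv, hz]
    ring
  have h0 : v * C.c0 z = a := by
    rw [← C.mul0, hEv, map_add, C.mul0, C.mul0, C.one0, C.w0, mul_one, mul_zero, add_zero]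
  have h1 : v * C.c1 z = b * X 1 := by
    rw [← C.mul1, hEv, map_add, C.mul1, C.mul1, C.one1, C.w1, mul_zero, zero_add]
  have h2 : v * C.c2 z = b * X 2 := by
    rw [← C.mul2, hEv, map_add, C.mul2, C.mul2, C.one2, C.w2, mul_zero, zero_add]
  have h3 : X 2 * C.c1 z = X 1 * C.c2 z := by
    apply mul_left_cancel₀ hv0
    calc v * (X 2 * C.c1 z) = X 2 * (v * C.c1 z) := by ring
      _ = X 1 * (v * C.c2 z) := by rw [h1, h2]; ring
      _ = v * (X 1 * C.c2 z) := by ring
  have h4 : (X 1 : D k) ∣ C.c1 z := by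
    have hp : Prime (X 1 : D k) := MvPolynomial.X_prime
    rcases hp.dvd_or_dvd (a := X 2) (b := C.c1 z) ⟨_, h3⟩ with h | h
    · exfalso
      rw [MvPolynomial.X_dvd_X] at h
      exact absurd h (by decide)
    · exact h
  obtain ⟨b', hb'⟩ := h4
  have h5 : v * b' = b := by
    rw [hb'] at h1
    apply mul_right_cancel₀ (MvPolynomial.X_ne_zero (R := k) (1 : Fin 3))
    rw [← h1]
    ring
  have hb'od : IsOd b' := by
    have h6 : P.p0 b' = 0 := by
      have h7 := P.ev_mul0 v b' hv
      rw [h5, P.p0_od b hb] at h7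
      exact (mul_eq_zero.1 h7.symm).resolve_left hv0
    have h8 := P.add b'
    rw [h6, zero_add] at h8
    rw [← h8]
    exact P.od _
  have ha'ev : IsEv (C.c0 z) := by
    have h6 : P.p1 (C.c0 z) = 0 := by
      have h7 := P.ev_mul1 v (C.c0 z) hv
      rw [h0, P.p1_ev a ha] at h7
      exact (mul_eq_zero.1 h7.symm).resolve_left hv0
    have h8 := P.add (C.c0 z)
    rw [h6, add_zero] at h8
    rw [← h8]
    exact P.ev _
  refine (hMem k z).2 ⟨C.c0 z, b', ha'ev, hb'od, ?_⟩
  apply mul_left_cancel₀ hEv0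
  rw [hEv, mul_add, ← mul_assoc, ← map_mul, ← map_mul, h0, h5, mul_one]

theorem taskNormal : TaskNormal := by
  intro hMem hCoord hPar hRoot k _ _ _
  rw [isIntegrallyClosed_iff (FractionRing (R k))]
  intro x hx
  obtain ⟨α, β, hβ, rfl⟩ := IsFractionRing.div_surjective (A := R k) x
  have hβ0 : β ≠ 0 := nonZeroDivisors.ne_zero hβ
  have hinj : Function.Injective (algebraMap (R k) (FractionRing (D k))) := by
    rw [IsScalarTower.algebraMap_eq (R k) (D k) (FractionRing (D k))]
    exact (IsFractionRing.injective (D k) (FractionRing (D k))).comp Subtype.val_injective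
  let φ : FractionRing (R k) →ₐ[R k] FractionRing (D k) :=
    IsFractionRing.liftAlgHom (K := FractionRing (R k)) (g := Algebra.ofId (R k) (FractionRing (D k))) hinj
  have h1 : IsIntegral (R k) (φ (algebraMap (R k) (FractionRing (R k)) α /
      algebraMap (R k) (FractionRing (R k)) β)) := hx.map φ
  have h2 : IsIntegral (D k) (φ (algebraMap (R k) (FractionRing (R k)) α /
      algebraMap (R k) (FractionRing (R k)) β)) := h1.tower_top
  obtain ⟨z, hz⟩ := IsIntegrallyClosed.isIntegral_iff.1 h2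
  rw [map_div₀, AlgHom.commutes, AlgHom.commutes] at hz
  have hβ' : algebraMap (R k) (FractionRing (D k)) β ≠ 0 := by
    intro h
    exact hβ0 (hinj (h.trans (map_zero _).symm))
  rw [eq_div_iff hβ'] at hz
  have hz' : (α : D k) = β * z := by
    apply IsFractionRing.injective (D k) (FractionRing (D k))
    rw [map_mul, mul_comm]
    exact hz.symm
  have hzR := key hMem hCoord hPar hRoot k α β hβ0 z hz'
  refine ⟨⟨z, hzR⟩, ?_⟩
  have hβ'' : algebraMap (R k) (FractionRing (R k)) β ≠ 0 := by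
    intro h
    exact hβ0 (IsFractionRing.injective (R k) (FractionRing (R k)) (h.trans (map_zero _).symm))
  rw [eq_div_iff hβ'', ← map_mul]
  congr 1
  apply Subtype.ext
  show z * (β : D k) = α
  rw [hz', mul_comm]

end Pool.Agent.H787R3.NF
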